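import Pool.Agent.Helper47.NW.Num

set_option autoImplicit false

namespace Pool.Agent.Helper47.NW

open Pool.Agent.Helper52.Wq2 Pool.Agent.Helper61.NW
open scoped Nat

universe u

variable {Γ : Type u} [Group Γ]

theorem dih_aux {S : Set Γ} {ph : Equiv.Perm Γ} {X : Γ → ℤ} {H : ℤ} {c : Γ} {m : ℕ}
    (hN : Nm S ph X H c m) (hm : m ≤ 2) : ∃ (n m : ℕ) (G : SimpleGraph (ℤ × Fin n)),
    m ≤ 2 * (n ! * (n * n)) ∧ Lsys n m G ∧ Nonempty (cay S ≃g G) := by
  obtain ⟨G, hG, hI⟩ := hN.main
  refine ⟨_, _, G, ?_, hG, hI⟩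
  have h1 := hG.npos
  have h2 : 0 < (Nat.card (Fd X H)) ! := Nat.factorial_pos _
  have h3 : 1 ≤ Nat.card (Fd X H) * Nat.card (Fd X H) := Nat.mul_pos h1 h1
  calc (Nat.card (Fd X H)) ! * m ≤ (Nat.card (Fd X H)) ! * 2 := Nat.mul_le_mul_left _ hm
    _ = 2 * ((Nat.card (Fd X H)) ! * 1) := by ring
    _ ≤ _ := by gcongr

theorem dih : DihStmt.{u} := by
  intro Γ _ ε h S hD hS hfin
  have coc := hD.coc
  have hε : ∀ g, ε g = 1 ∨ ε g = -1 := fun g => Int.units_eq_one_or _
  have h1 : h 1 = 0 := by
    have := coc 1 1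
    simp at this
    exact this
  have hinv : ∀ g, ε g⁻¹ = ε g := by
    intro g
    rw [map_inv]
    rcases hε g with e | e <;> rw [e] <;> rfl
  -- reflections
  obtain ⟨s0, hs0, hs0'⟩ : ∃ s ∈ S, ε s = -1 := by
    by_contra hc
    push Not at hc
    obtain ⟨v, hv⟩ := hD.neg
    have key : ∀ x ∈ Subgroup.closure S, ε x = 1 := by
      intro x hx
      induction hx using Subgroup.closure_induction with
      | mem x hx => exact (hε x).resolve_right (hc x hx)
      | one => simp
      | mul x y _ _ a b => rw [map_mul, a, b, one_mul]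
      | inv x _ a => rw [hinv, a]
    have := key v (by rw [hS.1]; trivial)
    rw [this] at hv
    exact absurd hv (by decide)
  have hRf : {s | s ∈ S ∧ ε s = -1}.Finite := hfin.subset (fun x hx => hx.1)
  obtain ⟨t, ht, htm⟩ := Set.exists_max_image {s | s ∈ S ∧ ε s = -1} h hRf ⟨s0, hs0, hs0'⟩
  obtain ⟨r, hr, hrm⟩ := Set.exists_min_image {s | s ∈ S ∧ ε s = -1} h hRf ⟨s0, hs0, hs0'⟩
  obtain ⟨htS, hte⟩ := ht
  obtain ⟨hrS, hre⟩ := hr
  obtain ⟨y0, hy0⟩ : ∃ y0 : ℤ, y0 = h t + h r := ⟨_, rfl⟩
  obtain ⟨X, hX⟩ : ∃ X : Γ → ℤ, ∀ g, X g = 4 * h g + (ε g : ℤ) * y0 := ⟨_, fun _ => rfl⟩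
  have hX1 : ∀ g u, X (g * u) = X g + (ε g : ℤ) * (X u - y0) := by
    intro g u
    rw [hX, hX, hX, coc, map_mul, Units.val_mul]; ring
  have hX2 : ∀ x g, X (x * g) = 4 * h x + (ε x : ℤ) * X g := by
    intro g u
    rw [hX, hX, coc, map_mul, Units.val_mul]; ring
  obtain ⟨w, hw, hwm⟩ := Set.exists_max_image S (fun u => |X u - y0|) hfin ⟨s0, hs0⟩
  obtain ⟨H, hH⟩ : ∃ H : ℤ, H = |X w - y0| := ⟨_, rfl⟩
  have hle : ∀ u ∈ S, |X u - y0| ≤ H := by
    intro u hu
    rw [hH]; exact hwm u hu
  have hX11 : X 1 = y0 := by rw [hX, h1, map_one]; simp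
  have Hpos : 0 < H := by
    by_contra hc
    have hc2 : ∀ u ∈ S, X u = y0 := by
      intro u hu
      have h2 := hle u hu
      have h3 := abs_nonneg (X u - y0)
      have h4 : |X u - y0| = 0 := by linarith
      linarith [abs_eq_zero.1 h4]
    have key : ∀ x ∈ Subgroup.closure S, X x = y0 := by
      intro x hx
      induction hx using Subgroup.closure_induction with
      | mem x hx => exact hc2 x hx
      | one => exact hX11
      | mul x y _ _ a b => rw [hX1, a, b]; ring
      | inv x _ a =>
        have h2 := hX1 x x⁻¹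
        rw [mul_inv_cancel, hX11, a] at h2
        rcases hε x with e | e <;> rw [e] at h2 <;> push_cast at h2 <;> linarith
    obtain ⟨g, hg1, hg2⟩ := hD.unb
    have h2 := key g (by rw [hS.1]; trivial)
    rw [hX, hg1] at h2
    push_cast at h2
    apply hg2
    linarith
  have hF : {g | 0 ≤ X g ∧ X g < H}.Finite := by
    have e1 : {g | 0 ≤ X g ∧ X g < H} = (fun g => (ε g, X g)) ⁻¹' (Set.univ ×ˢ Set.Ico 0 H) := by
      ext g; simp
    rw [e1]
    apply Set.Finite.preimage' (Set.finite_univ.prod (Set.finite_Ico 0 H))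
    intro b _
    rcases Set.eq_empty_or_nonempty ((fun g => (ε g, X g)) ⁻¹' {b}) with he | ⟨g0, hg0⟩
    · rw [he]; exact Set.finite_empty
    · refine (hD.ker.image (fun k => g0 * k)).subset ?_
      intro g hg
      have h2 : (ε g, X g) = (ε g0, X g0) := by
        rw [Set.mem_preimage, Set.mem_singleton_iff] at hg hg0
        rw [hg, hg0]
      rw [Prod.mk.injEq] at h2
      refine ⟨g0⁻¹ * g, ⟨?_, ?_⟩, by simp⟩
      · rw [map_mul, hinv, h2.1]
        rcases hε g0 with e | e <;> rw [e] <;> rfl
      · have h3 := hX2 g0 (g0⁻¹ * g)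
        rw [mul_inv_cancel_left, h2.2] at h3
        have h4 : h g = h g0 := by
          have h5 := hX g; have h6 := hX g0
          rw [h2.1] at h5
          rw [h2.2] at h5
          linarith
        have h5 := coc g0 (g0⁻¹ * g)
        rw [mul_inv_cancel_left, h4] at h5
        rcases hε g0 with e | e <;> rw [e] at h5 <;> push_cast at h5 <;> linarith
  have hnr : ∀ g g', (cay S).Adj g g' → |X g - X g'| ≤ H := by
    intro g g' hg
    rw [cay_adj hS] at hg
    have h2 := hX1 g (g⁻¹ * g')
    rw [mul_inv_cancel_left] at h2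
    have h3 := hle _ hg
    rw [h2]
    rcases hε g with e | e <;> rw [e] <;> push_cast <;> rw [abs_le] at h3 ⊢ <;>
      constructor <;> linarith [h3.1, h3.2]
  rcases hε w with hwe | hwe
  · -- Case 1
    have hw4 : X w - y0 = 4 * h w := by rw [hX, hwe]; push_cast; ring
    obtain ⟨s, hsS, hse, hsH⟩ : ∃ s ∈ S, ε s = 1 ∧ 4 * h s = H := by
      rcases le_or_gt 0 (h w) with h0 | h0
      · refine ⟨w, hw, hwe, ?_⟩
        rw [hH, hw4, abs_of_nonneg (by linarith)]
      · refine ⟨w⁻¹, hS.2.1 _ hw, by rw [hinv, hwe], ?_⟩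
        have h2 := coc w w⁻¹
        rw [mul_inv_cancel, h1, hwe] at h2
        push_cast at h2
        rw [hH, hw4, abs_of_neg (by linarith)]
        linarith
    have hez : ∀ g (k : ℤ), ε (g * s ^ k) = ε g := by
      intro g k
      rw [map_mul, map_zpow, hse, one_zpow, mul_one]
    let ph : Equiv.Perm Γ :=
      { toFun := fun g => g * s ^ (ε g : ℤ)
        invFun := fun g => g * s ^ (-(ε g : ℤ))
        left_inv := fun g => by
          simp only
          rw [hez, mul_assoc, ← zpow_add, add_neg_cancel, zpow_zero, mul_one]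
        right_inv := fun g => by
          simp only
          rw [hez, mul_assoc, ← zpow_add, neg_add_cancel, zpow_zero, mul_one] }
    have hph : ∀ g, ph g = g * s ^ (ε g : ℤ) := fun _ => rfl
    have hphi : ∀ g, ph⁻¹ g = g * s ^ (-(ε g : ℤ)) := fun _ => rfl
    have hXs : X s - y0 = H := by rw [hX, hse]; push_cast; linarith
    have hXsi : X s⁻¹ - y0 = -H := by
      have h2 := hX1 s s⁻¹
      rw [mul_inv_cancel, hX11, hse] at h2
      push_cast at h2
      linarith
    refine dih_aux (S := S) (ph := ph) (X := X) (H := H) (c := s) (m := 1)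
      ⟨hS, Hpos, ?_, ?_, hnr, hF, one_pos, ?_, ?_, ?_⟩ (by norm_num)
    · intro g
      rw [hph, hX1]
      rcases hε g with e | e <;> rw [e] <;> push_cast
      · rw [zpow_one, hXs]; ring
      · rw [zpow_neg_one, hXsi]; ring
    · intro g
      rw [hph]
      apply cay_adj_mul hS
      rcases hε g with e | e <;> rw [e] <;> push_cast
      · rw [zpow_one]; exact hsS
      · rw [zpow_neg_one]; exact hS.2.1 _ hsS
    · intro g
      rw [hph, hph, map_mul, hse, one_mul, mul_assoc]
    · intro g
      rw [hX2, hse]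
      push_cast
      linarith
    · intro g g'
      refine ⟨g' * g⁻¹, (ε (g' * g⁻¹) : ℤ), ?_, ⟨0, by simp⟩, ?_⟩
      · rcases hε (g' * g⁻¹) with e | e <;> rw [e] <;> simp
      · intro v
        generalize g' * g⁻¹ = x
        rcases hε x with e | e <;> rw [e] <;> push_cast
        · rw [zpow_one, hph, hph, map_mul, e, one_mul, mul_assoc]
        · rw [zpow_neg_one, hph, hphi, map_mul, e, mul_assoc]
          congr 3
          simp
  · -- Case 2
    have h2 : H ≤ 2 * (h t - h r) := by
      have a1 := htm w ⟨hw, hwe⟩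
      have a2 := hrm w ⟨hw, hwe⟩
      rw [hH, hX, hwe, abs_le]
      push_cast
      constructor <;> linarith
    have hXt : X t - y0 = 2 * (h t - h r) := by rw [hX, hte]; push_cast; linarith
    have hXr : X r - y0 = -(2 * (h t - h r)) := by rw [hX, hre]; push_cast; linarith
    have hHe : H = 2 * (h t - h r) := by
      have h3 := hle t htS
      rw [hXt] at h3
      have h4 := le_abs_self (2 * (h t - h r))
      linarith
    have hne : ¬ ((-1 : ℤˣ) = 1) := by decide
    let ph : Equiv.Perm Γ :=
      { toFun := fun g => if ε g = 1 then g * t else g * r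
        invFun := fun g => if ε g = 1 then g * r⁻¹ else g * t⁻¹
        left_inv := fun g => by
          simp only
          rcases hε g with e | e
          · rw [show (if ε g = 1 then g * t else g * r) = g * t from if_pos e, if_neg,
              mul_inv_cancel_right]
            rw [map_mul, e, hte, one_mul]; exact hne
          · rw [show (if ε g = 1 then g * t else g * r) = g * r from
              if_neg (by rw [e]; exact hne), if_pos, mul_inv_cancel_right]
            rw [map_mul, e, hre]; rfl
        right_inv := fun g => by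
          simp only
          rcases hε g with e | e
          · rw [show (if ε g = 1 then g * r⁻¹ else g * t⁻¹) = g * r⁻¹ from if_pos e, if_neg,
              inv_mul_cancel_right]
            rw [map_mul, hinv, e, hre, one_mul]; exact hne
          · rw [show (if ε g = 1 then g * r⁻¹ else g * t⁻¹) = g * t⁻¹ from
              if_neg (by rw [e]; exact hne), if_pos, inv_mul_cancel_right]
            rw [map_mul, hinv, e, hte]; rfl }
    have hph : ∀ g, ph g = if ε g = 1 then g * t else g * r := fun _ => rfl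
    have hcx : ∀ x, ε x = 1 → ∀ g, x * ph g = ph (x * g) := by
      intro x hx g
      rw [hph, hph, map_mul, hx, one_mul]
      split_ifs <;> rw [mul_assoc]
    have hcx2 : ∀ x, ε x = 1 → ∀ g, x * ph⁻¹ g = ph⁻¹ (x * g) := by
      intro x hx g
      apply ph.injective
      rw [← hcx x hx, show ∀ v, ph (ph⁻¹ v) = v from fun v => ph.apply_symm_apply v,
        show ∀ v, ph (ph⁻¹ v) = v from fun v => ph.apply_symm_apply v]
    have hrep : ∀ g, ∃ k : ℤ, ε ((ph ^ k) g) = 1 := by
      intro g
      rcases hε g with e | e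
      · exact ⟨0, by simpa using e⟩
      · refine ⟨1, ?_⟩
        rw [zpow_one, hph, if_neg (by rw [e]; exact hne), map_mul, e, hre]; rfl
    refine dih_aux (S := S) (ph := ph) (X := X) (H := H) (c := t * r) (m := 2)
      ⟨hS, Hpos, ?_, ?_, hnr, hF, two_pos, ?_, ?_, ?_⟩ le_rfl
    · intro g
      rw [hph]
      rcases hε g with e | e
      · rw [if_pos e, hX1, e, hXt, hHe]; push_cast; ring
      · rw [if_neg (by rw [e]; exact hne), hX1, e, hXr, hHe]; push_cast; ring
    · intro g
      rw [hph]
      split_ifs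
      · exact cay_adj_mul hS g htS
      · exact cay_adj_mul hS g hrS
    · exact hcx (t * r) (by rw [map_mul, hte, hre]; rfl)
    · intro g
      rw [hX2, coc, map_mul, hte, hre, hHe]
      push_cast
      ring
    · intro g g'
      obtain ⟨a, ha⟩ := hrep g
      obtain ⟨b, hb⟩ := hrep g'
      have hx1 : ε ((ph ^ b) g' * ((ph ^ a) g)⁻¹) = 1 := by
        rw [map_mul, hinv, ha, hb, one_mul]
      have hx2 : (ph ^ b) g' * ((ph ^ a) g)⁻¹ * (ph ^ a) g = (ph ^ b) g' := by
        rw [inv_mul_cancel_right]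
      generalize (ph ^ b) g' * ((ph ^ a) g)⁻¹ = x at hx1 hx2
      have hxk : ∀ (k : ℤ) v, x * (ph ^ k) v = (ph ^ k) (x * v) := by
        intro k
        induction k using Int.induction_on with
        | zero => intro v; simp
        | succ i ih =>
          intro v
          rw [add_comm, zpow_add, Equiv.Perm.mul_apply, zpow_one, hcx x hx1, ih,
            Equiv.Perm.mul_apply]
        | pred i ih =>
          intro v
          rw [sub_eq_add_neg, add_comm, zpow_add, Equiv.Perm.mul_apply, zpow_neg_one,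
            hcx2 x hx1, ih, Equiv.Perm.mul_apply]
      refine ⟨x, 1, Or.inl rfl, ⟨b - a, ?_⟩, fun v => by rw [zpow_one]; exact hcx x hx1 v⟩
      rw [hxk] at hx2
      have h5 : (ph ^ (-a)) ((ph ^ a) (x * g)) = (ph ^ (-a)) ((ph ^ b) g') := by rw [hx2]
      rw [← Equiv.Perm.mul_apply, ← Equiv.Perm.mul_apply, ← zpow_add, ← zpow_add, neg_add_cancel,
        zpow_zero, Equiv.Perm.one_apply] at h5
      rw [h5]
      congr 2
      ring

end Pool.Agent.Helper47.NW
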