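import Pool.Agent.Helper61.NW.Goals2
import Pool.Agent.Helper52.Wq2.Minor

set_option autoImplicit false

namespace Pool.Agent.Helper47.NW

open Pool.Agent.Helper52.Wq2 Pool.Agent.Helper61.NW
open scoped Nat

universe u

section Num

variable {Γ : Type u} [Group Γ]

structure Nm (S : Set Γ) (ph : Equiv.Perm Γ) (X : Γ → ℤ) (H : ℤ) (c : Γ) (m : ℕ) : Prop where
  gen : IsGen S
  Hpos : 0 < H
  shift : ∀ g, X (ph g) = X g + H
  stp : ∀ g, (cay S).Adj g (ph g)
  nr : ∀ g g', (cay S).Adj g g' → |X g - X g'| ≤ H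
  fin : {g | 0 ≤ X g ∧ X g < H}.Finite
  mpos : 0 < m
  comm : ∀ g, c * ph g = ph (c * g)
  cX : ∀ g, X (c * g) = X g + m * H
  tr : ∀ g g' : Γ, ∃ (x : Γ) (e : ℤ), (e = 1 ∨ e = -1) ∧ (∃ k : ℤ, x * g = (ph ^ k) g') ∧
    ∀ u, x * ph u = (ph ^ e) (x * u)

variable {S : Set Γ} {ph : Equiv.Perm Γ} {X : Γ → ℤ} {H : ℤ} {c : Γ} {m : ℕ}

theorem Nm.Xpow (hN : Nm S ph X H c m) (k : ℤ) (g : Γ) : X ((ph ^ k) g) = X g + k * H := by
  induction k using Int.induction_on with
  | zero => simp
  | succ i ih =>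
    rw [add_comm, zpow_add, Equiv.Perm.mul_apply, zpow_one, hN.shift, ih]
    push_cast; ring
  | pred i ih =>
    have h1 := hN.shift ((ph ^ (-(i:ℤ) - 1)) g)
    rw [← Equiv.Perm.mul_apply, ← zpow_one_add, show (1 + (-(i:ℤ) - 1)) = -(i:ℤ) by ring, ih] at h1
    linarith [h1]

/-- The fundamental domain. -/
abbrev Fd (X : Γ → ℤ) (H : ℤ) := {g : Γ // 0 ≤ X g ∧ X g < H}

/-- The numbering by `ℤ × Fd`. -/
noncomputable def numb (hN : Nm S ph X H c m) : Γ ≃ ℤ × Fd X H where
  toFun g := (X g / H, ⟨(ph ^ (-(X g / H))) g, by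
    rw [hN.Xpow]
    have h1 := Int.emod_nonneg (X g) (ne_of_gt hN.Hpos)
    have h2 := Int.emod_lt_of_pos (X g) hN.Hpos
    have h3 := Int.mul_ediv_add_emod (X g) H
    constructor <;> nlinarith⟩)
  invFun p := (ph ^ p.1) p.2.1
  left_inv g := by
    simp only
    rw [← Equiv.Perm.mul_apply, ← zpow_add, add_neg_cancel, zpow_zero, Equiv.Perm.one_apply]
  right_inv p := by
    obtain ⟨a, f, hf⟩ := p
    have h1 : X ((ph ^ a) f) / H = a := by
      rw [hN.Xpow, Int.add_mul_ediv_right _ _ (ne_of_gt hN.Hpos),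
        Int.ediv_eq_zero_of_lt hf.1 hf.2, zero_add]
    simp only [Prod.mk.injEq, Subtype.mk.injEq]
    refine ⟨h1, ?_⟩
    rw [h1, ← Equiv.Perm.mul_apply, ← zpow_add, neg_add_cancel, zpow_zero, Equiv.Perm.one_apply]

theorem Nm.conn (hS : IsGen S) : Conn (cay S) Set.univ := by
  refine ⟨⟨1, trivial⟩, fun A _ hA hcl => ?_⟩
  obtain ⟨a, ha⟩ := hA
  intro g _
  have key : ∀ x ∈ Subgroup.closure S, ∀ b, b ∈ A ↔ b * x ∈ A := by
    intro x hx
    induction hx using Subgroup.closure_induction with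
    | mem x hx =>
      intro b
      refine ⟨fun hb => hcl b hb _ trivial (cay_adj_mul hS b hx), fun hb => ?_⟩
      have := hcl _ hb _ trivial (cay_adj_mul hS (b * x) (hS.2.1 x hx))
      simpa using this
    | one => intro b; simp
    | mul x y _ _ h1 h2 => intro b; rw [← mul_assoc, ← h2, ← h1]
    | inv x hx h1 => intro b; rw [h1 (b * x⁻¹)]; simp
  have := (key (a⁻¹ * g) (by rw [hS.1]; trivial) a).1 ha
  simpa using this

theorem Nm.main (hN : Nm S ph X H c m) : ∃ (G : SimpleGraph (ℤ × Fin (Nat.card (Fd X H)))),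
    Lsys (Nat.card (Fd X H)) ((Nat.card (Fd X H)) ! * m) G ∧ Nonempty (cay S ≃g G) := by
  haveI : Finite (Fd X H) := hN.fin.to_subtype
  set n := Nat.card (Fd X H) with hn
  let N : Γ ≃ ℤ × Fin n := (numb hN).trans (Equiv.prodCongr (Equiv.refl ℤ) (Finite.equivFin _))
  let pt : Fin n → Γ := fun i => ((Finite.equivFin (Fd X H)).symm i).1
  have hP : ∀ a i, N.symm (a, i) = (ph ^ a) (pt i) := fun a i => rfl
  have hNs : ∀ g k, N ((ph ^ k) g) = ((N g).1 + k, (N g).2) := by
    intro g k
    rw [← Equiv.eq_symm_apply, hP]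
    have : g = (ph ^ (N g).1) (pt (N g).2) := by rw [← hP]; simp
    conv_lhs => rw [this]
    rw [← Equiv.Perm.mul_apply, ← zpow_add, add_comm]
  have hadj : ∀ g a b : Γ, (cay S).Adj (g * a) (g * b) ↔ (cay S).Adj a b := by
    intro g a b
    rw [cay_adj hN.gen, cay_adj hN.gen]
    simp [mul_assoc]
  have hpt : ∀ k, N (pt k) = (0, k) := by
    intro k
    rw [← Equiv.eq_symm_apply, hP]; simp
  have hcz : ∀ (l : ℤ) u, c * (ph ^ l) u = (ph ^ l) (c * u) := by
    intro l
    induction l using Int.induction_on with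
    | zero => intro u; simp
    | succ i ih =>
      intro u
      rw [add_comm, zpow_add, Equiv.Perm.mul_apply, zpow_one, hN.comm, ih, Equiv.Perm.mul_apply]
    | pred i ih =>
      intro u
      have h1 := hN.comm ((ph ^ (-(i:ℤ) - 1)) u)
      rw [← Equiv.Perm.mul_apply, ← zpow_one_add, show (1 + (-(i:ℤ) - 1)) = -(i:ℤ) by ring, ih]
        at h1
      have h2 : (ph ^ (-1 : ℤ)) ((ph ^ (-(i:ℤ))) (c * u)) =
          (ph ^ (-1 : ℤ)) (ph (c * (ph ^ (-(i:ℤ) - 1)) u)) := by
        rw [h1]
      rw [← Equiv.Perm.mul_apply, ← zpow_add, zpow_neg_one,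
        show ∀ v, ph⁻¹ (ph v) = v from fun v => ph.symm_apply_apply v] at h2
      rw [← h2]
      congr 2; ring
  have hcc : ∀ g, c ^ (n !) * g = (ph ^ ((n ! * m : ℕ) : ℤ)) g := by
    let σ : Fin n → Fin n := fun k => (N (c * pt k)).2
    have hσ : Function.Injective σ := by
      intro a b hab
      have h1 : N (c * pt b) = N ((ph ^ ((N (c * pt b)).1 - (N (c * pt a)).1)) (c * pt a)) := by
        rw [hNs]
        refine Prod.ext ?_ ?_
        · simp
        · exact hab.symm
      have h2 := N.injective h1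
      rw [← hcz] at h2
      have h4 := mul_left_cancel h2
      have h5 := congrArg N h4
      rw [hNs, hpt, hpt] at h5
      exact (congrArg Prod.snd h5).symm
    let σ' : Equiv.Perm (Fin n) := Equiv.ofBijective σ (Finite.injective_iff_bijective.1 hσ)
    have hline : ∀ g, (N (c * g)).2 = σ' (N g).2 := by
      intro g
      have : g = (ph ^ (N g).1) (pt (N g).2) := by rw [← hP]; simp
      conv_lhs => rw [this]
      rw [hcz, hNs]
      rfl
    have hlk : ∀ (k : ℕ) g, (N (c ^ k * g)).2 = (σ' ^ k) (N g).2 := by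
      intro k
      induction k with
      | zero => intro g; simp
      | succ k ih =>
        intro g
        rw [pow_succ, mul_assoc, ih, hline, pow_succ, Equiv.Perm.mul_apply]
    have hXk : ∀ (k : ℕ) g, X (c ^ k * g) = X g + (k * m) * H := by
      intro k
      induction k with
      | zero => intro g; simp
      | succ k ih =>
        intro g
        rw [pow_succ, mul_assoc, ih, hN.cX]
        push_cast; ring
    intro g
    have h1 : σ' ^ (n !) = 1 := by
      have := pow_card_eq_one (x := σ')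
      rwa [Fintype.card_perm, Fintype.card_fin] at this
    have h2 := hlk (n !) g
    rw [h1, Equiv.Perm.one_apply] at h2
    have h3 : c ^ (n !) * g = (ph ^ ((N (c ^ (n !) * g)).1 - (N g).1)) g := by
      apply N.injective
      rw [hNs]
      refine Prod.ext ?_ h2
      simp
    have h4 := hXk (n !) g
    rw [h3, hN.Xpow] at h4
    have h5 : (N (c ^ (n !) * g)).1 - (N g).1 = ((n ! * m : ℕ) : ℤ) := by
      push_cast
      exact mul_right_cancel₀ (ne_of_gt hN.Hpos) (by linarith)
    rw [h3, h5]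
  refine ⟨(cay S).comap N.symm, ?_, ⟨⟨N, by intro a b; simp⟩⟩⟩
  refine ⟨?_, Nat.mul_pos (Nat.factorial_pos _) hN.mpos, ?_, ?_, ?_, ?_, ?_⟩
  · haveI : Nonempty (Fin n) := ⟨(N 1).2⟩
    exact Fin.pos_iff_nonempty.2 inferInstance
  · intro a j
    rw [SimpleGraph.comap_adj, hP, hP, add_comm a 1, zpow_one_add, Equiv.Perm.mul_apply]
    exact hN.stp _
  · intro a b i j h
    rw [SimpleGraph.comap_adj, hP, hP] at h
    have h1 := hN.nr _ _ h
    rw [hN.Xpow, hN.Xpow] at h1
    have h2 := ((Finite.equivFin (Fd X H)).symm i).2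
    have h3 := ((Finite.equivFin (Fd X H)).symm j).2
    have hH := hN.Hpos
    change 0 ≤ X (pt i) ∧ X (pt i) < H at h2
    change 0 ≤ X (pt j) ∧ X (pt j) < H at h3
    rw [abs_le] at h1 ⊢
    constructor
    · by_contra hc
      push Not at hc
      nlinarith
    · by_contra hc
      push Not at hc
      nlinarith
  · intro a b i j
    rw [SimpleGraph.comap_adj, SimpleGraph.comap_adj, hP, hP, hP, hP, add_comm a, add_comm b,
      zpow_add, zpow_add, Equiv.Perm.mul_apply, Equiv.Perm.mul_apply, ← hcc, ← hcc, hadj]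
  · refine ⟨⟨N 1, trivial⟩, fun A _ hA hcl => ?_⟩
    have hc := (Nm.conn hN.gen).2 (N ⁻¹' A) (Set.subset_univ _) (by
      obtain ⟨a, ha⟩ := hA
      exact ⟨N.symm a, by simpa using ha⟩) (by
      intro a ha b _ hab
      refine hcl _ ha _ trivial ?_
      simpa using hab)
    intro p _
    have := hc (Set.mem_univ (N.symm p))
    simpa using this
  · intro i j
    obtain ⟨x, e, he, ⟨k, hk⟩, hx⟩ := hN.tr (pt i) (pt j)
    have hx2 : ∀ (l : ℤ) u, x * (ph ^ l) u = (ph ^ (e * l)) (x * u) := by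
      intro l
      induction l using Int.induction_on with
      | zero => intro u; simp
      | succ i ih =>
        intro u
        rw [add_comm, zpow_add, Equiv.Perm.mul_apply, zpow_one, hx, ih, ← Equiv.Perm.mul_apply,
          ← zpow_add]
        congr 2; ring
      | pred i ih =>
        intro u
        have h1 := hx ((ph ^ (-(i:ℤ) - 1)) u)
        rw [← Equiv.Perm.mul_apply, ← zpow_one_add, show (1 + (-(i:ℤ) - 1)) = -(i:ℤ) by ring, ih]
          at h1
        have h2 : (ph ^ (-e)) ((ph ^ (e * -(i:ℤ))) (x * u)) = (ph ^ (-e)) ((ph ^ e) (x * (ph ^ (-(i:ℤ) - 1)) u)) := by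
          rw [h1]
        rw [← Equiv.Perm.mul_apply, ← Equiv.Perm.mul_apply, ← zpow_add, ← zpow_add, neg_add_cancel,
          zpow_zero, Equiv.Perm.one_apply] at h2
        rw [← h2]
        congr 2; ring
    let τ : Fin n → Fin n := fun k => (N (x * pt k)).2
    have hτ : Function.Injective τ := by
      intro a b hab
      have h1 : N (x * pt b) = N ((ph ^ ((N (x * pt b)).1 - (N (x * pt a)).1)) (x * pt a)) := by
        rw [hNs]
        refine Prod.ext ?_ ?_
        · simp
        · exact hab.symm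
      have h2 := N.injective h1
      set l := (N (x * pt b)).1 - (N (x * pt a)).1
      have h3 : x * pt b = x * (ph ^ (e * l)) (pt a) := by
        rw [hx2, ← mul_assoc, show e * e = 1 by rcases he with rfl | rfl <;> rfl, one_mul]
        exact h2
      have h4 := mul_left_cancel h3
      have h5 := congrArg N h4
      rw [hNs, hpt, hpt] at h5
      exact (congrArg Prod.snd h5).symm
    let f0 : Γ ≃ Γ := Equiv.mulLeft x
    refine ⟨⟨N.symm.trans ((Equiv.mulLeft x).trans N), ?_⟩,
      Equiv.ofBijective τ (Finite.injective_iff_bijective.1 hτ), e, fun k => (N (x * pt k)).1,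
      he, ?_, ?_⟩
    · intro a b
      simp [hadj]
    · change τ i = j
      change (N (x * pt i)).2 = j
      rw [hk, hNs, hpt]
    · intro a k
      change N (x * N.symm (a, k)) = _
      rw [hP, hx2, hNs]
      refine Prod.ext ?_ rfl
      simp only
      ring

end Num

end Pool.Agent.Helper47.NW
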